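import Mathlib

set_option autoImplicit false

open Set Relation

namespace Pool.Agent.Results.MP_a0ec0b_co.NoProperFourCycle

variable {V : Type}

/-- connectivity inside a set -/
def Conn (adj : V → V → Prop) (S : Set V) : Prop :=
  ∀ x ∈ S, ∀ y ∈ S, ReflTransGen (fun a b => adj a b ∧ a ∈ S ∧ b ∈ S) x y

/-- component of `y` in the complement of `B` -/
def Cmp (adj : V → V → Prop) (B : Set V) (y : V) : Set V :=
  {z | ReflTransGen (fun a b => adj a b ∧ a ∉ B ∧ b ∉ B) y z}

/-- monochromatic component -/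
def MC (adj : V → V → Prop) (c : V → V → Bool) (b : Bool) (x : V) : Set V :=
  {z | ReflTransGen (fun a a' => adj a a' ∧ c a a' = b) x z}

lemma rtg_mono {P Q : V → V → Prop} (hPQ : ∀ a b, P a b → Q a b) {x y : V}
    (h : ReflTransGen P x y) : ReflTransGen Q x y := by
  induction h with
  | refl => exact ReflTransGen.refl
  | tail _ h2 ih => exact ReflTransGen.tail ih (hPQ _ _ h2)

lemma zm (pu pv pw pt qu qv qw qt : ZMod 2) (e1 : pu+pv=1→qu=qv) (e2 : pv+pw=1→qv=qw)
    (e3 : pw+pt=1→qw=qt) (e4 : pt+pu=1→qt=qu) (oA : pu+pv=1 → pw+pt=1 → pv+pw=0 → qu=qw)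
    (oB : pv+pw=1 → pt+pu=1 → pu+pv=0 → qu=qw) :
    (pu+pv)*(qu*qv)+(pv+pw)*(qv*qw)+(pw+pt)*(qw*qt)+(pt+pu)*(qt*qu)=0 := by
  have h01 : ∀ x : ZMod 2, x = 0 ∨ x = 1 := by decide
  have hsum : (pu+pv)+(pv+pw)+(pw+pt)+(pt+pu)=0 := by
    have : ∀ a b c d : ZMod 2, (a+b)+(b+c)+(c+d)+(d+a)=0 := by decide
    exact this _ _ _ _
  have hsq : ∀ x : ZMod 2, x*x=x := by decide
  have h2 : ∀ x : ZMod 2, x + x = 0 := by decide
  generalize pu+pv = a at *
  generalize pv+pw = b at *
  generalize pw+pt = c at *
  generalize pt+pu = d at *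
  rcases h01 a with rfl | rfl <;> rcases h01 b with rfl | rfl <;> rcases h01 c with rfl | rfl <;>
    rcases h01 d with rfl | rfl <;> simp at e1 e2 e3 e4 oA oB hsum <;>
    try (exfalso; revert hsum; decide)
  all_goals (try subst_vars)
  all_goals simp [hsq, h2]

lemma iff4 {a b c d : Prop} (h1 : ¬ (a ↔ b)) (h2 : ¬ (c ↔ d)) (h3 : b ↔ c) : (d ↔ a) := by tauto

lemma bool_opp {x y r : Bool} (hx : ¬ x = !r) (hy : ¬ y = !r) : x = y := by
  cases x <;> cases y <;> cases r <;> simp_all

lemma bool_flip {x r : Bool} (hx : ¬ x = !r) : x = r := by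
  cases x <;> cases r <;> simp_all

section
variable {adj : V → V → Prop} (hsymm : ∀ a b, adj a b → adj b a)
  (hconn : ∀ x y, ReflTransGen adj x y)
include hsymm

omit hsymm in
lemma rtg_symm {P : V → V → Prop} (hP : ∀ a b, P a b → P b a) {x y : V}
    (h : ReflTransGen P x y) : ReflTransGen P y x := by
  induction h with
  | refl => exact ReflTransGen.refl
  | tail _ h2 ih => exact ReflTransGen.head (hP _ _ h2) ih

omit hsymm in
lemma cmp_disj {B : Set V} {y z : V} (hy : y ∉ B) (hz : z ∈ Cmp adj B y) : z ∉ B := by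
  unfold Cmp at hz
  rcases ReflTransGen.cases_tail hz with h | ⟨w, _, hw⟩
  · rw [h]; exact hy
  · exact hw.2.2

omit hsymm in
lemma cmp_self (B : Set V) (y : V) : y ∈ Cmp adj B y := ReflTransGen.refl

omit hsymm in
lemma cmp_closed {B : Set V} {y a b : V} (hy : y ∉ B) (ha : a ∈ Cmp adj B y) (hab : adj a b)
    (hb : b ∉ B) : b ∈ Cmp adj B y :=
  ReflTransGen.tail ha ⟨hab, cmp_disj hy ha, hb⟩

lemma cmp_conn {B : Set V} {y : V} (hy : y ∉ B) : Conn adj (Cmp adj B y) := by
  have key : ∀ z ∈ Cmp adj B y,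
      ReflTransGen (fun a b => adj a b ∧ a ∈ Cmp adj B y ∧ b ∈ Cmp adj B y) y z := by
    intro z hz
    have hz' : ReflTransGen (fun a b => adj a b ∧ a ∉ B ∧ b ∉ B) y z := hz
    induction hz' with
    | refl => exact ReflTransGen.refl
    | tail h1 h2 ih => exact ReflTransGen.tail (ih h1) ⟨h2.1, h1, ReflTransGen.tail h1 h2⟩
  intro x hx z hz
  exact (rtg_symm (fun a b h => ⟨hsymm _ _ h.1, h.2.2, h.2.1⟩) (key x hx)).trans (key z hz)

lemma mc_conn (c : V → V → Bool) (hc : ∀ a b, c a b = c b a) (b : Bool) (x : V) :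
    Conn adj (MC adj c b x) := by
  have key : ∀ z ∈ MC adj c b x,
      ReflTransGen (fun a a' => adj a a' ∧ a ∈ MC adj c b x ∧ a' ∈ MC adj c b x) x z := by
    intro z hz
    have hz' : ReflTransGen (fun a a' => adj a a' ∧ c a a' = b) x z := hz
    induction hz' with
    | refl => exact ReflTransGen.refl
    | tail h1 h2 ih => exact ReflTransGen.tail (ih h1) ⟨h2.1, h1, ReflTransGen.tail h1 h2⟩
  intro y hy z hz
  exact (rtg_symm (fun a b h => ⟨hsymm _ _ h.1, h.2.2, h.2.1⟩) (key y hy)).trans (key z hz)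

include hconn

omit hsymm in
/-- every point reaches `B`, staying in its own component of the complement before -/
lemma reach_B {B : Set V} {b0 : V} (hb0 : b0 ∈ B) {x : V} (hx : x ∉ B) :
    ∃ a ∈ Cmp adj B x, ∃ b ∈ B, adj a b := by
  have h := hconn x b0
  by_contra hcon
  push Not at hcon
  have key : ∀ z, ReflTransGen adj x z → z ∈ Cmp adj B x := by
    intro z hz
    induction hz with
    | refl => exact ReflTransGen.refl
    | @tail u v h1 h2 ih =>
      refine cmp_closed hx ih h2 ?_
      intro hv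
      exact hcon _ ih _ hv h2
  exact cmp_disj hx (key _ h) hb0

lemma compl_cmp_conn {B : Set V} (hB : Conn adj B) {b0 : V} (hb0 : b0 ∈ B) {y : V} (hy : y ∉ B) :
    Conn adj (Cmp adj B y)ᶜ := by
  have hBsub : B ⊆ (Cmp adj B y)ᶜ := fun b hb h => cmp_disj hy h hb
  have key : ∀ x ∈ (Cmp adj B y)ᶜ,
      ReflTransGen (fun a b => adj a b ∧ a ∈ (Cmp adj B y)ᶜ ∧ b ∈ (Cmp adj B y)ᶜ) x b0 := by
    intro x hx
    have hBB : ∀ b ∈ B,
        ReflTransGen (fun a b => adj a b ∧ a ∈ (Cmp adj B y)ᶜ ∧ b ∈ (Cmp adj B y)ᶜ) b b0 := by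
      intro b hb
      exact rtg_mono (fun u v h => ⟨h.1, hBsub h.2.1, hBsub h.2.2⟩) (hB b hb b0 hb0)
    by_cases hxB : x ∈ B
    · exact hBB x hxB
    · obtain ⟨a, ha, b, hb, hab⟩ := reach_B hconn hb0 hxB
      have hdis : ∀ z ∈ Cmp adj B x, z ∈ (Cmp adj B y)ᶜ := by
        intro z hz hz2
        apply hx
        have h1 : ReflTransGen (fun a b => adj a b ∧ a ∉ B ∧ b ∉ B) z x :=
          rtg_symm (fun a b h => ⟨hsymm _ _ h.1, h.2.2, h.2.1⟩) hz
        exact ReflTransGen.trans hz2 h1
      have h2 := cmp_conn hsymm hxB x (cmp_self B x) a ha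
      have h3 := rtg_mono (fun u v (h : adj u v ∧ u ∈ Cmp adj B x ∧ v ∈ Cmp adj B x) =>
        (⟨h.1, hdis _ h.2.1, hdis _ h.2.2⟩ :
          adj u v ∧ u ∈ (Cmp adj B y)ᶜ ∧ v ∈ (Cmp adj B y)ᶜ)) h2
      exact (ReflTransGen.tail h3 ⟨hab, hdis _ ha, hBsub hb⟩).trans (hBB b hb)
  intro x hx z hz
  exact (key x hx).trans
    (rtg_symm (fun a b h => ⟨hsymm _ _ h.1, h.2.2, h.2.1⟩) (key z hz))

/-- A connected set all of whose complementary components have less than half of the vertices meets its image
under every automorphism. -/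
lemma meets_image [Finite V] {B : Set V} (hB : Conn adj B) {b0 : V} (hb0 : b0 ∈ B)
    (hsmall : ∀ y, y ∉ B → 2 * (Cmp adj B y).ncard < Nat.card V)
    (φ : V ≃ V) (hφ : ∀ a b, adj (φ a) (φ b) ↔ adj a b) :
    ∃ w ∈ B, φ w ∈ B := by
  by_contra hcon
  push Not at hcon
  -- φ B lies in one component E
  set E := Cmp adj B (φ b0) with hE
  have hE0 : φ b0 ∉ B := hcon b0 hb0
  have hφB : ∀ w ∈ B, φ w ∈ E := by
    intro w hw
    have h := hB b0 hb0 w hw
    have key : ∀ z, ReflTransGen (fun a b => adj a b ∧ a ∈ B ∧ b ∈ B) b0 z → φ z ∈ E := by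
      intro z hz
      induction hz with
      | refl => exact cmp_self _ _
      | @tail u v h1 h2 ih => exact cmp_closed hE0 ih ((hφ _ _).2 h2.1) (hcon v h2.2.2)
    exact key w h
  have hinv : ∀ w ∈ B, φ.symm w ∉ B := by
    intro w hw h
    have := hcon _ h
    rw [Equiv.apply_symm_apply] at this
    exact this hw
  set E' := Cmp adj B (φ.symm b0) with hE'
  have hsub : ∀ z ∈ Eᶜ, φ.symm z ∈ E' := by
    intro z hz
    have hb0E : b0 ∈ Eᶜ := fun h => cmp_disj hE0 h hb0
    have h := compl_cmp_conn hsymm hconn hB hb0 hE0 b0 hb0E z hz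
    have key : ∀ z, ReflTransGen (fun a b => adj a b ∧ a ∈ Eᶜ ∧ b ∈ Eᶜ) b0 z → φ.symm z ∈ E' := by
      intro z hz
      induction hz with
      | refl => exact cmp_self _ _
      | @tail u v h1 h2 ih =>
        refine cmp_closed (hinv b0 hb0) ih ?_ ?_
        · rw [← hφ]; simpa using h2.1
        · intro hv
          have := hφB _ hv
          rw [Equiv.apply_symm_apply] at this
          exact h2.2.2 this
    exact key z h
  have h1 : (Eᶜ).ncard ≤ E'.ncard := by
    apply Set.ncard_le_ncard_of_injOn (fun z => φ.symm z)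
    · intro z hz; exact hsub z hz
    · exact φ.symm.injective.injOn
  have h2 := hsmall _ hE0
  have h3 := hsmall _ (hinv b0 hb0)
  have h4 : E.ncard + (Eᶜ).ncard = Nat.card V := Set.ncard_add_ncard_compl E
  rw [← hE] at h2
  rw [← hE'] at h3
  omega

/-- all cut edges around a complementary component of a monochromatic component are in one component of
the other colour -/
lemma cut_mono (c : V → V → Bool) (hc : ∀ a b, c a b = c b a)
    (h4 : ∀ u v w t, adj u v → adj v w → adj w t → adj t u → u ≠ w → v ≠ t →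
      ¬ (c u v = c w t ∧ c v w = c t u ∧ c u v ≠ c v w))
    (hH : ∀ s : V → V → ZMod 2, (∀ a b, s a b = s b a) →
      (∀ u v w t, adj u v → adj v w → adj w t → adj t u → s u v + s v w + s w t + s t u = 0) →
      ∃ g : V → ZMod 2, ∀ a b, adj a b → s a b = g a + g b)
    (r : Bool) (x0 y0 : V) (hy0 : y0 ∉ MC adj c r x0) (a1 a1' a2 a2' : V)
    (h1 : a1 ∈ MC adj c r x0) (h1' : a1' ∈ Cmp adj (MC adj c r x0) y0) (ha1 : adj a1 a1')
    (h2 : a2 ∈ MC adj c r x0) (h2' : a2' ∈ Cmp adj (MC adj c r x0) y0) (ha2 : adj a2 a2') :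
    a2 ∈ MC adj c (!r) a1 := by
  classical
  set B := MC adj c r x0 with hB
  set D := Cmp adj B y0 with hD
  -- colour of cut edges
  have hcut : ∀ u v, adj u v → u ∈ D → v ∉ D → c u v = !r := by
    intro u v huv hu hv
    have hvB : v ∈ B := by
      by_contra h
      exact hv (cmp_closed hy0 hu huv h)
    have huB : u ∉ B := cmp_disj hy0 hu
    by_contra hne
    have hcr : c u v = r := bool_flip hne
    apply huB
    exact ReflTransGen.tail hvB ⟨hsymm _ _ huv, by rw [hc]; exact hcr⟩
  set Q := MC adj c (!r) a1 with hQ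
  have hQe : ∀ u v, adj u v → c u v = !r → (u ∈ Q ↔ v ∈ Q) := by
    intro u v huv hcol
    constructor
    · intro hu; exact ReflTransGen.tail hu ⟨huv, hcol⟩
    · intro hv; exact ReflTransGen.tail hv ⟨hsymm _ _ huv, by rw [hc]; exact hcol⟩
  have hcutQ : ∀ u v, adj u v → ¬ (u ∈ D ↔ v ∈ D) → c u v = !r := by
    intro u v huv h
    by_cases hu : u ∈ D
    · have hv : v ∉ D := fun hv => h ⟨fun _ => hv, fun _ => hu⟩
      exact hcut u v huv hu hv
    · have hv : v ∈ D := by
        by_contra hv
        exact h ⟨fun h => absurd h hu, fun h => absurd h hv⟩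
      rw [hc]
      exact hcut v u (hsymm _ _ huv) hv hu
  let p : V → ZMod 2 := fun u => if u ∈ D then 1 else 0
  let q : V → ZMod 2 := fun u => if u ∈ Q then 1 else 0
  have hp1 : ∀ u v, p u + p v = 1 → ¬ (u ∈ D ↔ v ∈ D) := by
    intro u v h
    simp only [p] at h
    by_cases hu : u ∈ D <;> by_cases hv : v ∈ D <;> simp only [hu, hv, if_true, if_false] at h ⊢ <;>
      revert h <;> decide
  have hp0 : ∀ u v, p u + p v = 0 → (u ∈ D ↔ v ∈ D) := by
    intro u v h
    simp only [p] at h
    by_cases hu : u ∈ D <;> by_cases hv : v ∈ D <;> simp only [hu, hv, if_true, if_false] at h ⊢ <;>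
      revert h <;> decide
  have hp0' : ∀ u v, (u ∈ D ↔ v ∈ D) → p u + p v = 0 := by
    intro u v h
    simp only [p]
    by_cases hu : u ∈ D <;> by_cases hv : v ∈ D <;> simp only [hu, hv, if_true, if_false] at h ⊢ <;>
      revert h <;> decide
  have hp1' : ∀ u v, ¬ (u ∈ D ↔ v ∈ D) → p u + p v = 1 := by
    intro u v h
    simp only [p]
    by_cases hu : u ∈ D <;> by_cases hv : v ∈ D <;> simp only [hu, hv, if_true, if_false] at h ⊢ <;>
      revert h <;> decide
  have hq : ∀ u v, (u ∈ Q ↔ v ∈ Q) → q u = q v := by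
    intro u v h
    simp only [q]
    by_cases hu : u ∈ Q
    · rw [if_pos hu, if_pos (h.1 hu)]
    · rw [if_neg hu, if_neg (fun hv => hu (h.2 hv))]
  let s : V → V → ZMod 2 := fun u v => (p u + p v) * (q u * q v)
  have hs_symm : ∀ a b, s a b = s b a := by
    intro a b
    simp only [s]
    ring
  have hs4 : ∀ u v w t, adj u v → adj v w → adj w t → adj t u → s u v + s v w + s w t + s t u = 0 := by
    intro u v w t huv hvw hwt htu
    have c1 := hcutQ u v huv
    have c2 := hcutQ v w hvw
    have c3 := hcutQ w t hwt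
    have c4 := hcutQ t u htu
    -- opposite pattern A: uv and wt cut, vw and tu not cut
    have oppA : ¬ (u ∈ D ↔ v ∈ D) → ¬ (w ∈ D ↔ t ∈ D) → (v ∈ D ↔ w ∈ D) → (u ∈ Q ↔ w ∈ Q) := by
      intro k1 k3 k2
      have k4 : (t ∈ D ↔ u ∈ D) := iff4 k1 k3 k2
      have huw : u ≠ w := fun e => k1 (by rw [e]; exact k2.symm)
      have hvt : v ≠ t := fun e => k1 (by rw [e]; exact k4.symm)
      by_cases hv2 : c v w = !r
      · exact (hQe u v huv (c1 k1)).trans (hQe v w hvw hv2)
      · by_cases ht2 : c t u = !r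
        · exact (hQe t u htu ht2).symm.trans (hQe w t hwt (c3 k3)).symm
        · exfalso
          apply h4 u v w t huv hvw hwt htu huw hvt
          exact ⟨(c1 k1).trans (c3 k3).symm, bool_opp hv2 ht2, fun h => hv2 (h.symm.trans (c1 k1))⟩
    have oppB : ¬ (v ∈ D ↔ w ∈ D) → ¬ (t ∈ D ↔ u ∈ D) → (u ∈ D ↔ v ∈ D) → (u ∈ Q ↔ w ∈ Q) := by
      intro k1 k3 k2
      have k4 : (w ∈ D ↔ t ∈ D) := iff4 k3 k1 k2
      have huw : u ≠ w := fun e => k1 (by rw [← e]; exact k2.symm)
      have hvt : v ≠ t := fun e => k1 (by rw [e]; exact k4.symm)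
      by_cases hv2 : c u v = !r
      · exact (hQe u v huv hv2).trans (hQe v w hvw (c2 k1))
      · by_cases ht2 : c w t = !r
        · exact (hQe t u htu (c4 k3)).symm.trans (hQe w t hwt ht2).symm
        · exfalso
          apply h4 u v w t huv hvw hwt htu huw hvt
          exact ⟨bool_opp hv2 ht2, (c2 k1).trans (c4 k3).symm, fun h => hv2 (h.trans (c2 k1))⟩
    exact zm (p u) (p v) (p w) (p t) (q u) (q v) (q w) (q t)
      (fun h => hq _ _ (hQe u v huv (c1 (hp1 _ _ h))))
      (fun h => hq _ _ (hQe v w hvw (c2 (hp1 _ _ h))))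
      (fun h => hq _ _ (hQe w t hwt (c3 (hp1 _ _ h))))
      (fun h => hq _ _ (hQe t u htu (c4 (hp1 _ _ h))))
      (fun a b c' => hq _ _ (oppA (hp1 _ _ a) (hp1 _ _ b) (hp0 _ _ c')))
      (fun a b c' => hq _ _ (oppB (hp1 _ _ a) (hp1 _ _ b) (hp0 _ _ c')))
  obtain ⟨g, hg⟩ := hH s hs_symm hs4
  -- g constant on D and on the complement
  have hBconn : Conn adj B := mc_conn hsymm c hc r x0
  have hx0B : x0 ∈ B := ReflTransGen.refl
  have hDconn : Conn adj D := cmp_conn hsymm hy0
  have hDcconn : Conn adj Dᶜ := compl_cmp_conn hsymm hconn hBconn hx0B hy0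
  have hconst : ∀ S : Set V, (∀ u ∈ S, ∀ v ∈ S, (u ∈ D ↔ v ∈ D)) → Conn adj S →
      ∀ x ∈ S, ∀ y ∈ S, g x = g y := by
    intro S hS hSc x hx y hy
    have key : ∀ z, ReflTransGen (fun a b => adj a b ∧ a ∈ S ∧ b ∈ S) x z → g x = g z := by
      intro z hz
      induction hz with
      | refl => rfl
      | @tail u v h1 h2 ih =>
        rw [ih]
        have h5 := hg u v h2.1
        have h6 : s u v = 0 := by
          simp only [s]
          rw [hp0' u v (hS u h2.2.1 v h2.2.2), zero_mul]
        rw [h6] at h5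
        have : g u = g v := by
          have h7 : g u + g v = 0 := h5.symm
          have h8 : g v + g v = 0 := CharTwo.add_self_eq_zero _
          exact add_right_cancel (h7.trans h8.symm)
        exact this
    exact key y (hSc x hx y hy)
  have hgD := hconst D (fun u hu v hv => ⟨fun _ => hv, fun _ => hu⟩) hDconn a1' h1' a2' h2'
  have ha1D : a1 ∈ Dᶜ := fun h => cmp_disj hy0 h h1
  have ha2D : a2 ∈ Dᶜ := fun h => cmp_disj hy0 h h2
  have hgDc := hconst Dᶜ (fun u hu v hv => ⟨fun h => absurd h hu, fun h => absurd h hv⟩) hDcconn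
    a1 ha1D a2 ha2D
  have hs1 : s a1 a1' = 1 := by
    have hk : ¬ (a1 ∈ D ↔ a1' ∈ D) := fun h => ha1D (h.2 h1')
    have hQ1 : a1 ∈ Q := ReflTransGen.refl
    have hQ2 : a1' ∈ Q := (hQe a1 a1' ha1 (hcutQ _ _ ha1 hk)).1 hQ1
    simp only [s]
    rw [hp1' _ _ hk]
    simp only [q]
    rw [if_pos hQ1, if_pos hQ2]
    decide
  have hs2 : s a2 a2' = 1 := by
    rw [hg a2 a2' ha2, ← hgD, ← hgDc, ← hg a1 a1' ha1, hs1]
  by_contra hnot
  simp only [s, q] at hs2
  rw [if_neg hnot, zero_mul, mul_zero] at hs2
  exact absurd hs2 (by decide)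

/-- there is a monochromatic component all of whose complementary components are smaller than half -/
lemma exists_balanced [Finite V] [Nonempty V] (c : V → V → Bool) (hc : ∀ a b, c a b = c b a)
    (h4 : ∀ u v w t, adj u v → adj v w → adj w t → adj t u → u ≠ w → v ≠ t →
      ¬ (c u v = c w t ∧ c v w = c t u ∧ c u v ≠ c v w))
    (hH : ∀ s : V → V → ZMod 2, (∀ a b, s a b = s b a) →
      (∀ u v w t, adj u v → adj v w → adj w t → adj t u → s u v + s v w + s w t + s t u = 0) →
      ∃ g : V → ZMod 2, ∀ a b, adj a b → s a b = g a + g b) :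
    ∃ (r : Bool) (x : V), ∀ y, y ∉ MC adj c r x → 2 * (Cmp adj (MC adj c r x) y).ncard < Nat.card V := by
  have key : ∀ m : ℕ, ∀ (r : Bool) (x0 y0 : V), y0 ∉ MC adj c r x0 →
      (Cmp adj (MC adj c r x0) y0).ncard = m → Nat.card V ≤ 2 * m →
      ∃ (r : Bool) (x : V), ∀ y, y ∉ MC adj c r x →
        2 * (Cmp adj (MC adj c r x) y).ncard < Nat.card V := by
    intro m
    induction m using Nat.strong_induction_on with
    | _ m IH =>
      intro r x0 y0 hy0 hm hV
      set B := MC adj c r x0 with hB
      set D := Cmp adj B y0 with hD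
      have hx0B : x0 ∈ B := ReflTransGen.refl
      obtain ⟨a1', ha1', a1, ha1, hadj⟩ := reach_B hconn hx0B hy0
      have hadj' := hsymm _ _ hadj
      by_cases hbal : ∀ y, y ∉ MC adj c (!r) a1 →
          2 * (Cmp adj (MC adj c (!r) a1) y).ncard < Nat.card V
      · exact ⟨!r, a1, hbal⟩
      push Not at hbal
      obtain ⟨z, hz, hzbig⟩ := hbal
      set Q := MC adj c (!r) a1 with hQ
      set E := Cmp adj Q z with hE
      have hcutQ : ∀ u v, adj u v → u ∈ D → v ∉ D → u ∈ Q ∧ v ∈ Q := by
        intro u v huv hu hv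
        have hvB : v ∈ B := by
          by_contra h
          exact hv (cmp_closed hy0 hu huv h)
        have huB : u ∉ B := cmp_disj hy0 hu
        have hvQ : v ∈ Q := cut_mono hsymm hconn c hc h4 hH r x0 y0 hy0 a1 a1' v u ha1 ha1' hadj'
          hvB hu (hsymm _ _ huv)
        have hcol : c v u = !r := by
          by_contra hne
          have hcr : c v u = r := bool_flip hne
          exact huB (ReflTransGen.tail hvB ⟨hsymm _ _ huv, hcr⟩)
        exact ⟨ReflTransGen.tail hvQ ⟨hsymm _ _ huv, hcol⟩, hvQ⟩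
      have ha1Q : a1 ∈ Q := ReflTransGen.refl
      have ha1D : a1 ∉ D := fun h => cmp_disj hy0 h ha1
      have ha1'Q : a1' ∈ Q := (hcutQ a1' a1 hadj ha1' ha1D).1
      have hside : ∀ w ∈ E, (w ∈ D ↔ z ∈ D) := by
        intro w hw
        have hw' : ReflTransGen (fun a b => adj a b ∧ a ∉ Q ∧ b ∉ Q) z w := hw
        clear hw
        induction hw' with
        | refl => rfl
        | @tail u v h1 h2 ih =>
          refine Iff.trans ?_ ih
          constructor
          · intro hv
            by_contra hu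
            exact h2.2.2 (hcutQ v u (hsymm _ _ h2.1) hv hu).1
          · intro hu
            by_contra hv
            exact h2.2.1 (hcutQ u v h2.1 hu hv).1
      have hEQ : ∀ w ∈ E, w ∉ Q := fun w hw => cmp_disj hz hw
      by_cases hzD : z ∈ D
      · -- E strictly inside D
        have hlt : E.ncard < D.ncard := by
          apply Set.ncard_lt_ncard _ (Set.toFinite _)
          refine ⟨fun w hw => (hside w hw).2 hzD, fun h => ?_⟩
          exact hEQ _ (h ha1') ha1'Q
        exact IH E.ncard (by omega) (!r) a1 z hz rfl hzbig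
      · exfalso
        have hlt : E.ncard < Dᶜ.ncard := by
          apply Set.ncard_lt_ncard _ (Set.toFinite _)
          refine ⟨fun w hw hwD => hzD ((hside w hw).1 hwD), fun h => ?_⟩
          exact hEQ _ (h ha1D) ha1Q
        have h5 : D.ncard + Dᶜ.ncard = Nat.card V := Set.ncard_add_ncard_compl D
        omega
  obtain ⟨x⟩ := (inferInstance : Nonempty V)
  by_cases h : ∀ y, y ∉ MC adj c true x → 2 * (Cmp adj (MC adj c true x) y).ncard < Nat.card V
  · exact ⟨true, x, h⟩
  · push Not at h
    obtain ⟨y, hy, hyb⟩ := h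
    exact key _ true x y hy rfl hyb

end

/-! ### The cube -/

/-- flip one coordinate -/
def flip {n : ℕ} (i : Fin n) (x : Fin n → Bool) : Fin n → Bool := Function.update x i (!x i)

lemma flip_flip {n : ℕ} (i : Fin n) (x : Fin n → Bool) : flip i (flip i x) = x := by
  unfold flip
  funext j
  by_cases h : j = i
  · subst h; simp
  · simp [h]

lemma flip_comm {n : ℕ} (i j : Fin n) (x : Fin n → Bool) (h : i ≠ j) :
    flip i (flip j x) = flip j (flip i x) := by
  unfold flip
  funext k
  by_cases h1 : k = i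
  · subst h1; simp [h]
  · by_cases h2 : k = j
    · subst h2; simp [h1, Ne.symm h]
    · simp [h1, h2]

lemma flip_apply_same {n : ℕ} (i : Fin n) (x : Fin n → Bool) : flip i x i = !x i := by
  simp [flip]

lemma flip_apply_ne {n : ℕ} {i j : Fin n} (x : Fin n → Bool) (h : j ≠ i) : flip i x j = x j := by
  simp [flip, h]

lemma adj_iff {n : ℕ} (x y : Fin n → Bool) :
    (SimpleGraph.fromRel fun x y : Fin n → Bool => hammingDist x y = 1).Adj x y ↔
      ∃ i, y = flip i x := by
  have key : ∀ x y : Fin n → Bool, hammingDist x y = 1 ↔ ∃ i, y = flip i x := by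
    intro x y
    unfold hammingDist
    rw [Finset.card_eq_one]
    constructor
    · rintro ⟨i, hi⟩
      refine ⟨i, ?_⟩
      funext j
      by_cases hj : j = i
      · subst hj
        have : j ∈ Finset.univ.filter (fun i => x i ≠ y i) := by rw [hi]; simp
        simp only [Finset.mem_filter, Finset.mem_univ, true_and] at this
        rw [flip_apply_same]
        revert this
        cases x j <;> cases y j <;> decide
      · have : j ∉ Finset.univ.filter (fun i => x i ≠ y i) := by rw [hi]; simp [hj]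
        simp only [Finset.mem_filter, Finset.mem_univ, true_and, not_not] at this
        rw [flip_apply_ne x hj, this]
    · rintro ⟨i, rfl⟩
      refine ⟨i, ?_⟩
      ext j
      simp only [Finset.mem_filter, Finset.mem_univ, true_and, Finset.mem_singleton]
      by_cases hj : j = i
      · subst hj; simp [flip_apply_same]
      · simp [flip_apply_ne x hj, hj]
  rw [SimpleGraph.fromRel_adj]
  constructor
  · rintro ⟨_, h | h⟩
    · exact (key x y).1 h
    · obtain ⟨i, hi⟩ := (key y x).1 h
      exact ⟨i, by rw [hi, flip_flip]⟩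
  · intro h
    refine ⟨?_, Or.inl ((key x y).2 h)⟩
    rintro rfl
    obtain ⟨i, hi⟩ := h
    have := congrFun hi i
    rw [flip_apply_same] at this
    revert this
    cases x i <;> decide

lemma cube_conn {n : ℕ} (x y : Fin n → Bool) :
    ReflTransGen (SimpleGraph.fromRel fun x y : Fin n → Bool => hammingDist x y = 1).Adj x y := by
  classical
  have key : ∀ A : Finset (Fin n), ∀ x y : Fin n → Bool, (∀ i, i ∉ A → x i = y i) →
      ReflTransGen (SimpleGraph.fromRel fun x y : Fin n → Bool => hammingDist x y = 1).Adj x y := by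
    intro A
    induction A using Finset.induction_on with
    | empty =>
      intro x y h
      have : x = y := funext fun i => h i (by simp)
      rw [this]
    | insert j A hj ih =>
      intro x y h
      by_cases hxy : x j = y j
      · apply ih
        intro i hi
        by_cases hij : i = j
        · rw [hij, hxy]
        · exact h i (by simp [hi, hij])
      · refine ReflTransGen.head ((adj_iff x (flip j x)).2 ⟨j, rfl⟩) (ih _ _ ?_)
        intro i hi
        by_cases hij : i = j
        · subst hij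
          rw [flip_apply_same]
          revert hxy
          cases x i <;> cases y i <;> decide
        · rw [flip_apply_ne x hij]
          exact h i (by simp [hi, hij])
  exact key Finset.univ x y (fun i hi => absurd (Finset.mem_univ i) hi)

lemma cube_H1 {n : ℕ} (s : (Fin n → Bool) → (Fin n → Bool) → ZMod 2) (hs : ∀ a b, s a b = s b a)
    (h4 : ∀ u v w t, (SimpleGraph.fromRel fun x y : Fin n → Bool => hammingDist x y = 1).Adj u v →
      (SimpleGraph.fromRel fun x y : Fin n → Bool => hammingDist x y = 1).Adj v w →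
      (SimpleGraph.fromRel fun x y : Fin n → Bool => hammingDist x y = 1).Adj w t →
      (SimpleGraph.fromRel fun x y : Fin n → Bool => hammingDist x y = 1).Adj t u →
      s u v + s v w + s w t + s t u = 0) :
    ∃ g : (Fin n → Bool) → ZMod 2, ∀ a b,
      (SimpleGraph.fromRel fun x y : Fin n → Bool => hammingDist x y = 1).Adj a b →
      s a b = g a + g b := by
  classical
  have key : ∀ A : Finset (Fin n), ∃ g : (Fin n → Bool) → ZMod 2, ∀ i ∈ A, ∀ x,
      s x (flip i x) = g x + g (flip i x) := by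
    intro A
    induction A using Finset.induction_on with
    | empty => exact ⟨fun _ => 0, by simp⟩
    | insert j A hj ih =>
      obtain ⟨g, hg⟩ := ih
      refine ⟨fun x => if x j = false then g x else g (flip j x) + s x (flip j x), ?_⟩
      intro i hi x
      rw [Finset.mem_insert] at hi
      by_cases hij : i = j
      · subst hij
        by_cases hx : x i = false
        · have h2 : flip i x i = true := by rw [flip_apply_same, hx]; rfl
          simp only [hx, h2, if_true, flip_flip]
          rw [if_neg (by decide), ← add_assoc, CharTwo.add_self_eq_zero, zero_add, hs]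
        · have hx' : x i = true := by cases h : x i <;> simp_all
          have h2 : flip i x i = false := by rw [flip_apply_same, hx']; rfl
          simp only [hx', h2, if_true]
          rw [if_neg (by decide), add_comm, ← add_assoc, CharTwo.add_self_eq_zero, zero_add]
      · have hiA : i ∈ A := by tauto
        have hj2 : flip i x j = x j := flip_apply_ne x (fun h => hij h.symm)
        by_cases hx : x j = false
        · simp only [hj2, hx, if_true]
          exact hg i hiA x
        · simp only [hj2, hx, if_false]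
          have e1 := hg i hiA (flip j x)
          have e2 := h4 x (flip i x) (flip j (flip i x)) (flip j x)
            ((adj_iff _ _).2 ⟨i, rfl⟩) ((adj_iff _ _).2 ⟨j, rfl⟩)
            ((adj_iff _ _).2 ⟨i, by rw [flip_comm j i x (fun h => hij h.symm), flip_flip]⟩)
            ((adj_iff _ _).2 ⟨j, by rw [flip_flip]⟩)
          rw [flip_comm i j x hij] at e1
          rw [hs (flip j (flip i x)) (flip j x), e1, hs (flip j x) x] at e2
          have e3 : ∀ a b c d e : ZMod 2, a + b + (c + d) + e = 0 → a = c + e + (d + b) := by decide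
          exact e3 _ _ _ _ _ e2
  obtain ⟨g, hg⟩ := key Finset.univ
  refine ⟨g, fun a b hab => ?_⟩
  obtain ⟨i, rfl⟩ := (adj_iff a b).1 hab
  exact hg i (Finset.mem_univ i) a

/-- For every `n`, every automorphism `φ` of the `n`-cube and every 2-colouring of its edges without a properly
coloured 4-cycle, some vertex `u` is joined to `φ u` by a monochromatic path. -/
theorem result :
    ∀ n : ℕ,
      ∀ φ : (SimpleGraph.fromRel fun x y : Fin n → Bool => hammingDist x y = 1) ≃g
            (SimpleGraph.fromRel fun x y : Fin n → Bool => hammingDist x y = 1),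
        ∀ c : Sym2 (Fin n → Bool) → Bool,
          (∀ u v w t : Fin n → Bool,
            (SimpleGraph.fromRel fun x y : Fin n → Bool => hammingDist x y = 1).Adj u v →
            (SimpleGraph.fromRel fun x y : Fin n → Bool => hammingDist x y = 1).Adj v w →
            (SimpleGraph.fromRel fun x y : Fin n → Bool => hammingDist x y = 1).Adj w t →
            (SimpleGraph.fromRel fun x y : Fin n → Bool => hammingDist x y = 1).Adj t u →
            u ≠ w → v ≠ t →
            ¬ (c s(u, v) = c s(w, t) ∧ c s(v, w) = c s(t, u) ∧ c s(u, v) ≠ c s(v, w))) →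
          ∃ u : Fin n → Bool,
            ∃ p : (SimpleGraph.fromRel fun x y : Fin n → Bool => hammingDist x y = 1).Walk u (φ u),
              p.IsPath ∧ ∀ e ∈ p.edges, ∀ e' ∈ p.edges, c e = c e' := by
  classical
  intro n φ c h4
  let G := (SimpleGraph.fromRel fun x y : Fin n → Bool => hammingDist x y = 1)
  have hsymm : ∀ a b, G.Adj a b → G.Adj b a := fun a b h => h.symm
  have hconn : ∀ x y, ReflTransGen G.Adj x y := cube_conn
  obtain ⟨r, x, hbal⟩ := exists_balanced hsymm hconn (fun a b => c s(a, b))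
    (fun a b => by rw [Sym2.eq_swap]) h4 (fun s hs h => cube_H1 s hs h)
  obtain ⟨w, hw, hφw⟩ := meets_image hsymm hconn
    (mc_conn hsymm (fun a b => c s(a, b)) (fun a b => by rw [Sym2.eq_swap]) r x)
    (b0 := x) ReflTransGen.refl hbal φ.toEquiv (fun a b => φ.map_adj_iff)
  have hwφ : ReflTransGen (fun a a' => G.Adj a a' ∧ c s(a, a') = r) w (φ w) := by
    refine ReflTransGen.trans (rtg_symm ?_ hw) hφw
    intro a b h
    exact ⟨hsymm _ _ h.1, by rw [Sym2.eq_swap]; exact h.2⟩
  have key : ∀ z, ReflTransGen (fun a a' => G.Adj a a' ∧ c s(a, a') = r) w z →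
      ∃ p : G.Walk w z, ∀ e ∈ p.edges, c e = r := by
    intro z hz
    induction hz with
    | refl => exact ⟨SimpleGraph.Walk.nil, by simp⟩
    | @tail u v h1 h2 ih =>
      obtain ⟨p, hp⟩ := ih
      refine ⟨p.concat h2.1, ?_⟩
      intro e he
      rw [SimpleGraph.Walk.edges_concat, List.concat_eq_append, List.mem_append] at he
      rcases he with he | he
      · exact hp e he
      · rw [List.mem_singleton] at he
        rw [he]; exact h2.2
  obtain ⟨p, hp⟩ := key _ hwφ
  refine ⟨w, p.toPath.1, p.toPath.2, ?_⟩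
  intro e he e' he'
  have h1 := p.edges_toPath_subset_edges he
  have h2 := p.edges_toPath_subset_edges he'
  rw [hp e h1, hp e' h2]

end Pool.Agent.Results.MP_a0ec0b_co.NoProperFourCycle
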